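import Pool.Agent.Lib.MP_b9add9_lc.AddB.Core

/-!
# Generic parameters
-/

namespace ESY.Alg.AddB

open ESY ESY.Few Set Topology Filter
open ESY.Uni (inp inp_length inp_inj baire_closure inNP_inp)
open ESY.Alg.Gen (IsAdd exo bd bd_mono exo_congr EO clopen_EO)

variable (E : Oracle → Oracle) (X₀ : Oracle) {k : ℕ}

/-- the pair is not disjoint -/
def Meet (a b : ℕ) : Set Par := {y | ∃ q, Tr (EO E X₀ y) a q ∧ Tr (EO E X₀ y) b q}

theorem isOpen_meet (hE : IsAdd k E) (a b : ℕ) : IsOpen (Meet E X₀ a b) := by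
  have h1 : Meet E X₀ a b = ⋃ q, ({y | Tr (EO E X₀ y) a q} ∩ {y | Tr (EO E X₀ y) b q}) := by
    ext y
    simp only [Meet, mem_ofPred_eq, mem_iUnion, mem_inter_iff]
  rw [h1]
  exact isOpen_iUnion fun q => ((Gen.clopen_trE E X₀ hE _ _).inter (Gen.clopen_trE E X₀ hE _ _)).2

/-- `M` accepts `x` deterministically -/
def Acc (a b : ℕ) (M : Machine) (T : ℕ → ℕ) (y : Par) (x : List Bool) : Prop :=
  AcceptsIn (join (EO E X₀ y) (sepE E X₀ y a b)) M x [] (T x.length)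

/-- `M` accepts `x` nondeterministically -/
def NAcc (a b : ℕ) (M : Machine) (T : ℕ → ℕ) (y : Par) (x : List Bool) : Prop :=
  ∃ w : List Bool, w.length ≤ T x.length ∧
    AcceptsIn (join (EO E X₀ y) (sepE E X₀ y a b)) M x w (T x.length)

theorem clopen_acc (hE : IsAdd k E) (a b : ℕ) (M : Machine) (T : ℕ → ℕ) (x : List Bool) :
    IsClopen {y | Acc E X₀ a b M T y x} := clopen_accepts fun s _ => clopen_joinE E X₀ hE _ _ s

theorem clopen_nacc (hE : IsAdd k E) (a b : ℕ) (M : Machine) (T : ℕ → ℕ) (x : List Bool) :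
    IsClopen {y | NAcc E X₀ a b M T y x} := by
  have h3 : {y | NAcc E X₀ a b M T y x} = ⋃ w ∈ {w : List Bool | w.length ≤ T x.length},
      {y | AcceptsIn (join (EO E X₀ y) (sepE E X₀ y a b)) M x w (T x.length)} := by
    ext y
    simp only [NAcc, mem_ofPred_eq, mem_iUnion, exists_prop]
  rw [h3]
  exact (List.finite_length_le Bool _).isClopen_biUnion fun w _ =>
    clopen_accepts fun s _ => clopen_joinE E X₀ hE _ _ s

/-- `M` separates the pair on `x` -/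
def WorksD (a b : ℕ) (M : Machine) (T : ℕ → ℕ) (y : Par) (x : List Bool) : Prop :=
  (inp a b false x ∈ Test (OO X₀ y) → Acc E X₀ a b M T y x) ∧
  (inp a b true x ∈ Test (OO X₀ y) → ¬ Acc E X₀ a b M T y x)

/-- `M` accepts the complement of the first language on `x` -/
def WorksN (a b : ℕ) (M : Machine) (T : ℕ → ℕ) (y : Par) (x : List Bool) : Prop :=
  inp a b false x ∉ Test (OO X₀ y) ↔ NAcc E X₀ a b M T y x

/-- `M` and `M'` separate the pair on `x` -/
def Works2 (a b : ℕ) (M M' : Machine) (T T' : ℕ → ℕ) (y : Par) (x : List Bool) : Prop :=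
  (NAcc E X₀ a b M T y x ∨ NAcc E X₀ a b M' T' y x) ∧
  (inp a b false x ∈ Test (OO X₀ y) → ¬ NAcc E X₀ a b M' T' y x) ∧
  (inp a b true x ∈ Test (OO X₀ y) → ¬ NAcc E X₀ a b M T y x)

theorem clopen_worksD (hE : IsAdd k E) (a b : ℕ) (M : Machine) (T : ℕ → ℕ) (x : List Bool) :
    IsClopen {y | WorksD E X₀ a b M T y x} :=
  clopen_and (clopen_imp (clopen_test X₀ _) (clopen_acc E X₀ hE _ _ _ _ _))
    (clopen_imp (clopen_test X₀ _) (clopen_not (clopen_acc E X₀ hE _ _ _ _ _)))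

theorem clopen_worksN (hE : IsAdd k E) (a b : ℕ) (M : Machine) (T : ℕ → ℕ) (x : List Bool) :
    IsClopen {y | WorksN E X₀ a b M T y x} := by
  have h : {y | WorksN E X₀ a b M T y x} =
      {y | (inp a b false x ∉ Test (OO X₀ y) → NAcc E X₀ a b M T y x) ∧
      (NAcc E X₀ a b M T y x → inp a b false x ∉ Test (OO X₀ y))} := by
    ext y
    simp only [WorksN, mem_ofPred_eq, iff_def]
  rw [h]
  exact clopen_and (clopen_imp (clopen_not (clopen_test X₀ _)) (clopen_nacc E X₀ hE _ _ _ _ _))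
    (clopen_imp (clopen_nacc E X₀ hE _ _ _ _ _) (clopen_not (clopen_test X₀ _)))

theorem clopen_works2 (hE : IsAdd k E) (a b : ℕ) (M M' : Machine) (T T' : ℕ → ℕ) (x : List Bool) :
    IsClopen {y | Works2 E X₀ a b M M' T T' y x} :=
  clopen_and (clopen_or (clopen_nacc E X₀ hE _ _ _ _ _) (clopen_nacc E X₀ hE _ _ _ _ _))
    (clopen_and (clopen_imp (clopen_test X₀ _) (clopen_not (clopen_nacc E X₀ hE _ _ _ _ _)))
      (clopen_imp (clopen_test X₀ _) (clopen_not (clopen_nacc E X₀ hE _ _ _ _ _))))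

/-- the requirement with the predicate `W` -/
def Req (a b : ℕ) (W : Par → List Bool → Prop) : Set Par := Meet E X₀ a b ∪ ⋃ x, {y | W y x}ᶜ

theorem isOpen_req (hE : IsAdd k E) {a b : ℕ} {W : Par → List Bool → Prop}
    (h : ∀ x, IsClopen {y | W y x}) : IsOpen (Req E X₀ a b W) := (isOpen_meet E X₀ hE a b).union (isOpen_iUnion fun x => (h x).compl.2)

variable {E X₀}

/-- the data of the density argument exist -/
theorem exists_setup (k : ℕ) {i₁ i₂ : ℕ} {T : ℕ → ℕ} (hT : Sub T) {U : Set Par} (hU : IsOpen U)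
    {y₀ : Par} (hy₀ : y₀ ∈ U) (ht : TameE E X₀ y₀)
    (hdis : ∀ y ∈ U, TameE E X₀ y → ∀ q, ¬ (Tr (EO E X₀ y) i₁ q ∧ Tr (EO E X₀ y) i₂ q)) :
    ∃ s : Setup E X₀ k i₁ i₂, s.U = U ∧ s.T = T s.n₁ := by
  obtain ⟨N₀, hN₀⟩ := exists_size hU hy₀
  obtain ⟨N, hN0, hfin, hviol⟩ := tame_bound E X₀ k ht N₀
  let m : ℕ → ℕ := fun n => n + 2 * T n
  let ℓ : ℕ → ℕ := fun n => (poly (nu i₁).2 (m n) + i₁ + m n + 2) +
    (poly (nu i₂).2 (m n) + i₂ + m n + 2)
  have hm : Sub m := sub_add sub_id (sub_mul (sub_const 2) hT)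
  have hℓ : Sub ℓ := by
    refine sub_add (sub_add (sub_add (sub_add ?_ (sub_const _)) hm) (sub_const _))
      (sub_add (sub_add (sub_add ?_ (sub_const _)) hm) (sub_const _))
    · exact sub_poly hm _
    · exact sub_poly hm _
  have hbd : ∀ {g : ℕ → ℕ}, Sub g → Sub fun n => bd k (g n) := fun hg =>
    sub_add hg (sub_poly hg k)
  have h2 : Sub fun n => 2 * T n + 1 +
      ((2 * ℓ n + 2 * bd k (2 * ℓ n) * ℓ n + 1) ^ 2 + 2 * bd k (m n)) * T n + 1 := by
    refine sub_add (sub_add (sub_add (sub_mul (sub_const 2) hT) (sub_const 1))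
      (sub_mul (sub_add (sub_pow (sub_add (sub_add (sub_mul (sub_const 2) hℓ)
        (sub_mul (sub_mul (sub_const 2) (hbd (sub_mul (sub_const 2) hℓ))) hℓ)) (sub_const 1)) 2)
        (sub_mul (sub_const 2) (hbd hm))) hT)) (sub_const 1)
  have hev := (((h2 1).and (hm 1)).and (eventually_ge_atTop
    (N + bd k (2 * (poly (nu i₁).2 N + i₁ + N + 2)) +
      bd k (2 * (poly (nu i₂).2 N + i₂ + N + 2)) + 1))).exists
  obtain ⟨n, ⟨hn2, hn4⟩, hn3⟩ := hev
  simp only [pow_one] at hn2 hn4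
  let s : Setup E X₀ k i₁ i₂ :=
    { U := U
      y₀ := y₀
      N := N
      hU := fun y hy => hN₀ y fun i hi => hy i (hi.trans hN0)
      hdis := hdis
      hfin := hfin
      hviol := hviol
      n₁ := n
      hn₁ := by omega
      L := m n
      hL := hn4
      ℓ := ℓ n
      hℓ₁ := fun q hq => (stm_len_le i₁ q (m n) hq).trans (Nat.le_add_right _ _)
      hℓ₂ := fun q hq => (stm_len_le i₂ q (m n) hq).trans (Nat.le_add_left _ _)
      hN₁ := fun q hq => (bd_mono (Nat.mul_le_mul_left 2 (stm_len_le i₁ q N hq))).trans (by omega)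
      hN₂ := fun q hq => (bd_mono (Nat.mul_le_mul_left 2 (stm_len_le i₂ q N hq))).trans (by omega)
      T := T n
      hT := le_rfl
      hB := Nat.lt_of_succ_le hn2 }
  exact ⟨s, rfl, rfl⟩

/-- for the density of a requirement it suffices to refute that it fails for all tame
parameters of a setup -/
theorem dense_req {a b : ℕ} {W : Par → List Bool → Prop} {T : ℕ → ℕ} (hT : Sub T)
    (h : ∀ s : Setup E X₀ k a b, s.T = T s.n₁ → (∀ y ∈ s.U, TameE E X₀ y → W y s.x₁) → False)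
    {U : Set Par} (hU : IsOpen U) (hne : (U ∩ {y | TameE E X₀ y}).Nonempty) :
    (U ∩ closure {y | TameE E X₀ y} ∩ Req E X₀ a b W).Nonempty := by
  by_contra hcon
  rw [not_nonempty_iff_eq_empty, eq_empty_iff_forall_notMem] at hcon
  have h0 : ∀ y ∈ U, TameE E X₀ y → y ∉ Req E X₀ a b W :=
    fun y hy ht hg => hcon y ⟨⟨hy, subset_closure ht⟩, hg⟩
  obtain ⟨y₀, hy₀, ht₀⟩ := hne
  obtain ⟨s, hs1, hs2⟩ := exists_setup k hT hU hy₀ ht₀
    fun y hy ht q hq => h0 y hy ht (Or.inl ⟨q, hq⟩)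
  refine h s hs2 fun y hy ht => ?_
  by_contra hx
  exact h0 y (hs1 ▸ hy) ht (Or.inr (mem_iUnion.2 ⟨_, hx⟩))

/-- many plants with the same value of a function -/
theorem big {a b : ℕ} (s : Setup E X₀ k a b) {ι : Type} [Fintype ι]
    (hι : Fintype.card ι ≤ 2 ^ (2 * s.T + 1)) (g : (Bool × s.f.W → Bool) → ι) :
    ∃ F : Finset (Bool × s.f.W → Bool), 2 ^ (s.lam * s.T) * 2 ^ 2 ^ s.f.n < F.card ∧
      ∃ v, ∀ p ∈ F, g p = v := by
  classical
  have hne : (Finset.univ : Finset (Bool × s.f.W → Bool)).Nonempty := ⟨fun _ => false,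
    Finset.mem_univ _⟩
  obtain ⟨F, -, h1, h2, h3⟩ := pigeon hι g Finset.univ hne
  obtain ⟨p₀, hp₀⟩ := h1
  refine ⟨F, ?_, g p₀, fun p hp => h3 p₀ hp₀ p hp⟩
  by_contra hcon
  push Not at hcon
  have h4 := s.num
  rw [Finset.card_univ] at h2
  have h5 := Nat.mul_le_mul_left (2 ^ (2 * s.T + 1)) hcon
  omega

theorem dense_D (hE : IsAdd k E) (a b : ℕ) (M : Machine) {T : ℕ → ℕ} (hT : Sub T) {U : Set Par}
    (hU : IsOpen U) (hne : (U ∩ {y | TameE E X₀ y}).Nonempty) :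
    (U ∩ closure {y | TameE E X₀ y} ∩ Req E X₀ a b (WorksD E X₀ a b M T)).Nonempty := by
  classical
  refine dense_req (k := k) hT (fun s hs2 hw => ?_) hU hne
  obtain ⟨κ, hκ⟩ := s.core hE
  have hacc : ∀ p p' κ', Acc E X₀ a b M T (s.y p p' κ') s.x₁ ↔ s.AccW M [] s.T p p' κ' := by
    intro p p' κ'
    unfold Acc Setup.AccW
    rw [s.x₁_len, hs2]
  obtain ⟨F, hF, v, hv⟩ := big s (ι := Bool) (by
      rw [Fintype.card_bool]
      calc 2 = 2 ^ 1 := rfl
        _ ≤ 2 ^ (2 * s.T + 1) := Nat.pow_le_pow_right (by norm_num) (by omega))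
    fun p => decide (s.AccW M [] s.T p (co p) (κ p))
  obtain ⟨p, hp, p', hp', h1, h2, h3⟩ := hκ v M [] s.T (by simp) le_rfl F hF
  have h4 := hw _ (s.y_mem p (co p') (κ p)) (s.tame_cross hE h1 (κ p))
  have h5 := s.test_yes h2 (κ p)
  have h6 := hv p hp
  cases v
  · exact of_decide_eq_false h6 (h3.1 ((hacc _ _ _).1 (h4.1 h5)))
  · exact h4.2 h5 ((hacc _ _ _).2 (h3.2 (of_decide_eq_true h6)))

theorem dense_N (hE : IsAdd k E) (a b : ℕ) (M : Machine) {T : ℕ → ℕ} (hT : Sub T) {U : Set Par}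
    (hU : IsOpen U) (hne : (U ∩ {y | TameE E X₀ y}).Nonempty) :
    (U ∩ closure {y | TameE E X₀ y} ∩ Req E X₀ a b (WorksN E X₀ a b M T)).Nonempty := by
  classical
  refine dense_req (k := k) hT (fun s hs2 hw => ?_) hU hne
  obtain ⟨κ, hκ⟩ := s.core hE
  have hacc : ∀ p p' κ' w, AcceptsIn (join (EO E X₀ (s.y p p' κ')) (sepE E X₀ (s.y p p' κ') a b)) M
      s.x₁ w (T s.x₁.length) ↔ s.AccW M w s.T p p' κ' := by
    intro p p' κ' w
    unfold Setup.AccW
    rw [s.x₁_len, hs2]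
  have h0 : ∀ p, ∃ x : Wc s.T, s.AccW M (wd x) s.T p (co p) (κ p) := by
    intro p
    obtain ⟨w, hw1, hw2⟩ := (hw _ (s.y_mem p (co p) (κ p)) (s.tame_co hE p (κ p))).1
      (s.test_co p (κ p) false)
    obtain ⟨x, rfl⟩ := wd_surj (t := s.T) (by rwa [s.x₁_len, ← hs2] at hw1)
    exact ⟨x, (hacc _ _ _ _).1 hw2⟩
  choose g hg using h0
  obtain ⟨F, hF, v, hv⟩ := big s (ι := Wc s.T) ((wc_card _).trans
    (Nat.pow_le_pow_right (by norm_num) (by omega))) g
  obtain ⟨p, hp, p', hp', h1, h2, h3⟩ := hκ false M (wd v) s.T (wd_len v) le_rfl F hF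
  have h4 := hw _ (s.y_mem p (co p') (κ p)) (s.tame_cross hE h1 (κ p))
  refine h4.2 ⟨wd v, ?_, (hacc _ _ _ _).2 (h3.2 ?_)⟩ (s.test_yes h2 (κ p))
  · rw [s.x₁_len, ← hs2]
    exact wd_len v
  · rw [← hv p hp]
    exact hg p

theorem dense_2 (hE : IsAdd k E) (a b : ℕ) (M M' : Machine) {T T' : ℕ → ℕ} (hT : Sub T) (hT' : Sub T')
    {U : Set Par} (hU : IsOpen U) (hne : (U ∩ {y | TameE E X₀ y}).Nonempty) :
    (U ∩ closure {y | TameE E X₀ y} ∩ Req E X₀ a b (Works2 E X₀ a b M M' T T')).Nonempty := by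
  classical
  refine dense_req (k := k) (sub_add hT hT') (fun s hs2 hw => ?_) hU hne
  obtain ⟨κ, hκ⟩ := s.core hE
  have hx := s.x₁_len
  have hacc : ∀ (M : Machine) (t : ℕ) p p' κ' w, AcceptsIn (join (EO E X₀ (s.y p p' κ'))
      (sepE E X₀ (s.y p p' κ') a b)) M s.x₁ w t ↔ s.AccW M w t p p' κ' :=
    fun M t p p' κ' w => Iff.rfl
  have h0 : ∀ p, ∃ z : Bool × Wc s.T,
      (z.1 = true → (wd z.2).length ≤ T s.n₁ ∧ s.AccW M (wd z.2) (T s.n₁) p (co p) (κ p)) ∧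
      (z.1 = false → (wd z.2).length ≤ T' s.n₁ ∧ s.AccW M' (wd z.2) (T' s.n₁) p (co p) (κ p)) := by
    intro p
    rcases (hw _ (s.y_mem p (co p) (κ p)) (s.tame_co hE p (κ p))).1 with ⟨w, hw1, hw2⟩ | ⟨w, hw1, hw2⟩
    · rw [hx] at hw1 hw2
      obtain ⟨x, rfl⟩ := wd_surj (t := s.T) (show w.length ≤ s.T by omega)
      exact ⟨(true, x), fun _ => ⟨hw1, hw2⟩, fun h => absurd h (by simp)⟩
    · rw [hx] at hw1 hw2
      obtain ⟨x, rfl⟩ := wd_surj (t := s.T) (show w.length ≤ s.T by omega)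
      exact ⟨(false, x), fun h => absurd h (by simp), fun _ => ⟨hw1, hw2⟩⟩
  choose g hg using h0
  obtain ⟨F, hF, v, hv⟩ := big s (ι := Bool × Wc s.T) (by
    rw [Fintype.card_prod, Fintype.card_bool, pow_succ']
    exact Nat.mul_le_mul_left _ (wc_card _)) g
  have hF0 : F.Nonempty := Finset.card_pos.1 (lt_of_le_of_lt (Nat.zero_le _) hF)
  obtain ⟨p₀, hp₀⟩ := hF0
  cases hv1 : v.1
  · have hlen : (wd v.2).length ≤ T' s.n₁ := by
      have := (hg p₀).2 (by rw [hv p₀ hp₀]; exact hv1)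
      rw [hv p₀ hp₀] at this
      exact this.1
    obtain ⟨p, hp, p', hp', h1, h2, h3⟩ := hκ false M' (wd v.2) (T' s.n₁) hlen (by omega) F hF
    have h4 := hw _ (s.y_mem p (co p') (κ p)) (s.tame_cross hE h1 (κ p))
    refine h4.2.1 (s.test_yes h2 (κ p)) ⟨wd v.2, by rwa [hx], ?_⟩
    rw [hx]
    refine h3.2 ?_
    have := (hg p).2 (by rw [hv p hp]; exact hv1)
    rw [hv p hp] at this
    exact this.2
  · have hlen : (wd v.2).length ≤ T s.n₁ := by
      have := (hg p₀).1 (by rw [hv p₀ hp₀]; exact hv1)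
      rw [hv p₀ hp₀] at this
      exact this.1
    obtain ⟨p, hp, p', hp', h1, h2, h3⟩ := hκ true M (wd v.2) (T s.n₁) hlen (by omega) F hF
    have h4 := hw _ (s.y_mem p (co p') (κ p)) (s.tame_cross hE h1 (κ p))
    refine h4.2.2 (s.test_yes h2 (κ p)) ⟨wd v.2, by rwa [hx], ?_⟩
    rw [hx]
    refine h3.2 ?_
    have := (hg p).1 (by rw [hv p hp]; exact hv1)
    rw [hv p hp] at this
    exact this.2

variable (E X₀)

/-- for generic parameters all the requirements hold -/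
theorem exists_generic (hE : IsAdd k E) (T : ℕ → ℕ → ℕ) (hT : Subexponential T) :
    ∃ y ∈ closure {y | TameE E X₀ y}, ∀ a b M c M' c', y ∈ Req E X₀ a b (WorksD E X₀ a b M (T c)) ∧
      y ∈ Req E X₀ a b (WorksN E X₀ a b M (T c)) ∧
      y ∈ Req E X₀ a b (Works2 E X₀ a b M M' (T c) (T c')) := by
  obtain ⟨y, hy, hyG⟩ := baire_closure {y | TameE E X₀ y} ⟨_, tame_zero E X₀⟩
    (fun p : (ℕ × ℕ × Machine × ℕ × Machine × ℕ) × Fin 3 =>
      if p.2 = 0 then Req E X₀ p.1.1 p.1.2.1 (WorksD E X₀ p.1.1 p.1.2.1 p.1.2.2.1 (T p.1.2.2.2.1))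
      else if p.2 = 1 then
        Req E X₀ p.1.1 p.1.2.1 (WorksN E X₀ p.1.1 p.1.2.1 p.1.2.2.1 (T p.1.2.2.2.1))
      else Req E X₀ p.1.1 p.1.2.1 (Works2 E X₀ p.1.1 p.1.2.1 p.1.2.2.1 p.1.2.2.2.2.1
        (T p.1.2.2.2.1) (T p.1.2.2.2.2.2)))
    (by
      rintro ⟨⟨a, b, M, c, M', c'⟩, i⟩
      simp only
      split_ifs
      · exact isOpen_req E X₀ hE (clopen_worksD E X₀ hE _ _ _ _)
      · exact isOpen_req E X₀ hE (clopen_worksN E X₀ hE _ _ _ _)
      · exact isOpen_req E X₀ hE (clopen_works2 E X₀ hE _ _ _ _ _ _))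
    (by
      rintro ⟨⟨a, b, M, c, M', c'⟩, i⟩ U hU hne
      simp only
      split_ifs
      · exact dense_D hE a b M (hT c) hU hne
      · exact dense_N hE a b M (hT c) hU hne
      · exact dense_2 hE a b M M' (hT c) (hT c') hU hne)
  refine ⟨y, hy, fun a b M c M' c' => ⟨?_, ?_, ?_⟩⟩
  · have := hyG ((a, b, M, c, M', c'), 0)
    simpa using this
  · have := hyG ((a, b, M, c, M', c'), 1)
    simpa using this
  · have := hyG ((a, b, M, c, M', c'), 2)
    simpa using this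

end ESY.Alg.AddB
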