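import Pool.Agent.Lib.MP_b9add9_lc.AddB.Dense
import Pool.Agent.Lib.MP_b9add9_lc.Alg.Final
import Pool.Agent.Lib.MP_80aaf5_lc.Btw.Closure

/-!
# No complete disjoint NP-pair relative to additive extensions of oracles
-/

namespace ESY.Alg.AddB

open ESY ESY.Few Set
open ESY.Uni (inp inNP_inp)
open ESY.Few2 (inTime_mono inNTime_mono inseparable_mono)
open ESY.Alg.Gen (IsAdd exo EO)

variable (E : Oracle → Oracle) (X₀ : Oracle) {k : ℕ}

/-- Relative to additive extensions of some oracle over `X₀` no disjoint `NP`-pair is hard for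
the disjoint `NP`-pairs of the oracle itself. -/
theorem main1 (hE : IsAdd k E) (T : ℕ → ℕ → ℕ) (hT : Subexponential T) : ∃ Y : Oracle,
    ∀ U V : Set (List Bool), NPPair (join (join X₀ Y) (E (join X₀ Y))) U V →
      ∃ S C D, Separator U V S ∧ NPPair (join X₀ Y) C D ∧
        Inseparable T (join (join X₀ Y) (E (join X₀ Y))) S C D ∧
        ¬ InNTime T (join (join (join X₀ Y) (E (join X₀ Y))) S) Cᶜ := by
  obtain ⟨y, hy, hG⟩ := exists_generic E X₀ hE T hT
  refine ⟨fun s => y (.inl s), fun A B hAB => ?_⟩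
  obtain ⟨hA, hB, hdisj⟩ := hAB
  obtain ⟨a, ha⟩ := (inNP_iff _ _).1 hA
  obtain ⟨b, hb⟩ := (inNP_iff _ _).1 hB
  have hdis : ¬ ∃ q, Tr (EO E X₀ y) a q ∧ Tr (EO E X₀ y) b q := by
    rintro ⟨q, h1, h2⟩
    exact Set.disjoint_left.1 hdisj ((ha q).2 h1) ((hb q).2 h2)
  have hK : y ∈ KE E X₀ := (isClosed_KE E X₀ hE).closure_subset_iff.2 (fun y hy => hy.1) hy
  have hreq : ∀ {W : Par → List Bool → Prop}, y ∈ Req E X₀ a b W → ∃ x, ¬ W y x := by
    rintro W (h | h)
    · exact absurd h hdis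
    · obtain ⟨x, hx⟩ := mem_iUnion.1 h
      exact ⟨x, hx⟩
  have hCD : Disjoint {x | inp a b false x ∈ Test (OO X₀ y)}
      {x | inp a b true x ∈ Test (OO X₀ y)} := by
    refine Set.disjoint_left.2 fun x h1 h2 => ?_
    obtain ⟨q, -, h3⟩ := hK a b x h1 h2
    exact hdis ⟨q, h3⟩
  refine ⟨sepE E X₀ y a b, {x | inp a b false x ∈ Test (OO X₀ y)},
    {x | inp a b true x ∈ Test (OO X₀ y)},
    ⟨fun x hx => if_pos ((ha x).1 hx), fun x hx => ?_⟩,
    ⟨inNP_inp _ _ _ _, inNP_inp _ _ _ _, hCD⟩, ?_, ?_⟩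
  · unfold sepE
    rw [if_neg fun h => hdis ⟨x, h, (hb x).1 hx⟩]
    exact if_pos ((hb x).1 hx)
  · intro E' hCE hDE
    constructor
    · rintro ⟨M, c, h⟩
      obtain ⟨x, hx⟩ := hreq (hG a b M c M c).1
      exact hx ⟨fun h1 => (h x).1 (hCE h1),
        fun h1 h2 => Set.disjoint_left.1 hDE h1 ((h x).2 h2)⟩
    · rintro ⟨⟨M, c, h⟩, M', c', h'⟩
      obtain ⟨x, hx⟩ := hreq (hG a b M c M' c').2.2
      refine hx ⟨?_, fun h1 h2 => (h' x).2 h2 (hCE h1),
        fun h1 h2 => Set.disjoint_left.1 hDE h1 ((h x).2 h2)⟩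
      by_cases hxE : x ∈ E'
      · exact Or.inl ((h x).1 hxE)
      · exact Or.inr ((h' x).1 hxE)
  · rintro ⟨M, c, h⟩
    obtain ⟨x, hx⟩ := hreq (hG a b M c M c).2.1
    exact hx (h x)

/-- The theorem on completeness relative to all oracles between an oracle and its extension. -/
theorem final (E : Oracle → Oracle) (hE : AdditiveExt E) (X : Oracle) (T : ℕ → ℕ → ℕ)
    (hT : Subexponential T) : ∃ Y : Oracle,
      (∀ B : Oracle, InP B {s | join X Y s = true} →
        InP (join (join X Y) (E (join X Y))) {s | B s = true} →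
        (¬ ∃ U V, MComplete B U V) ∧ ¬ ∃ U V, TComplete B U V) ∧
      ∀ U V, NPPair (join (join X Y) (E (join X Y))) U V →
        ∃ S C D, Separator U V S ∧ NPPair (join X Y) C D ∧
          Inseparable T (join (join X Y) (E (join X Y))) S C D ∧
          ¬ InNTime T (join (join (join X Y) (E (join X Y))) S) Cᶜ := by
  obtain ⟨k, hE⟩ := hE
  let T' : ℕ → ℕ → ℕ := fun c => if c % 2 = 0 then T (c / 2) else poly (c / 2)
  have hT' : Subexponential T' := by
    intro c k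
    by_cases h : c % 2 = 0
    · simpa only [T', h, if_true] using hT (c / 2) k
    · simpa only [T', h, if_false] using subexponential_poly (c / 2) k
  have h0 : ∀ c, ∃ c', T' c' = T c := fun c => ⟨2 * c, by simp [T']⟩
  have h1 : ∀ c, ∃ c', T' c' = poly c := by
    intro c
    refine ⟨2 * c + 1, ?_⟩
    have h2 : (2 * c + 1) % 2 ≠ 0 := by omega
    have h3 : (2 * c + 1) / 2 = c := by omega
    simp only [T', h2, if_false, h3]
  obtain ⟨Y, hY⟩ := main1 E X hE T' hT'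
  refine ⟨Y, fun B hAB hBE => ?_, fun U V hUV => ?_⟩
  · have hTC : ¬ ∃ U V, TComplete B U V := by
      rintro ⟨U, V, hUV, hc⟩
      obtain ⟨S, C, D, hS, hCD, hI, -⟩ :=
        hY U V ⟨Btw.btw_np hBE hUV.1, Btw.btw_np hBE hUV.2.1, hUV.2.2⟩
      obtain ⟨E', hCE, hDE, hE'⟩ :=
        hc C D ⟨Btw.btw_np hAB hCD.1, Btw.btw_np hAB hCD.2.1, hCD.2.2⟩ S hS
      exact (inseparable_mono h1 hI E' hCE hDE).1 (Btw.btw_join _ hBE hE')
    refine ⟨?_, hTC⟩
    rintro ⟨U, V, hUV, hc⟩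
    exact hTC ⟨U, V, hUV, fun C D hCD => treduces_of_mreduces (hc C D hCD)⟩
  · obtain ⟨S, C, D, hS, hCD, hI, hN⟩ := hY U V hUV
    exact ⟨S, C, D, hS, hCD, inseparable_mono h0 hI, fun h => hN (inNTime_mono h0 h)⟩

end ESY.Alg.AddB
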